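import Pool.Agent.H24R2.DZ.Spec
import Pool.Agent.H986R2.K4.LL

/-!
SD-SB2: lower bound of the `n`-th derivative where the logarithmic derivative is nearly `n`.
-/

set_option autoImplicit false

namespace Pool.Agent.W347.SD

open Complex Filter Topology Set Metric
open Pool.Agent.H24R2.DZ

theorem sb2L : SB2L := by
  obtain ⟨η, n0, hη, hn0, H⟩ := Pool.Agent.H986R2.K4.ll (1/2) (by norm_num)
  refine ⟨η, n0, hη, hn0, ?_⟩
  intro n p F hn hF
  have h1 := (H n p F hn hF).1
  have h2 : 1 ≤ Real.exp ((1 - 1/2) * n) := Real.one_le_exp (by positivity)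
  have h3 : 0 ≤ (n.factorial : ℝ) * ‖F p‖ := by positivity
  have h4 : (n.factorial : ℝ) * ‖F p‖ ≤ Real.exp ((1 - 1/2) * n) * ((n.factorial : ℝ) * ‖F p‖) :=
    le_mul_of_one_le_left h3 h2
  have h5 : 0 ≤ ‖iteratedDeriv n F p‖ := norm_nonneg _
  linarith

theorem sb2S : SB2S := by
  intro n0
  have hc0 : (0 : ℝ) < 4 * (n0 + 1) * Real.exp n0 := by positivity
  refine ⟨1 / (4 * (n0 + 1) * Real.exp n0), by positivity, ?_⟩
  intro n p F hn1 hn hF
  obtain ⟨η, hη⟩ : ∃ η : ℝ, η = 1 / (4 * (n0 + 1) * Real.exp n0) := ⟨_, rfl⟩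
  rw [← hη] at hF
  have hη0 : 0 < η := by rw [hη]; positivity
  have hnR : (n : ℝ) ≤ n0 := by exact_mod_cast hn
  have hn1R : (1 : ℝ) ≤ n := by exact_mod_cast hn1
  have hn0R : (1 : ℝ) ≤ n0 := hn1R.trans hnR
  have hηn : 2 * (η * n) * Real.exp n ≤ 1 / 2 := by
    have h1 : η * (4 * (n0 + 1) * Real.exp n0) = 1 := by rw [hη]; field_simp
    have h2 : Real.exp n ≤ Real.exp n0 := Real.exp_le_exp.2 hnR
    have h3 : (n : ℝ) * Real.exp n ≤ (n0 + 1) * Real.exp n0 :=
      mul_le_mul (by linarith) h2 (Real.exp_pos _).le (by positivity)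
    have h4 := mul_le_mul_of_nonneg_left h3 hη0.le
    nlinarith
  have hηn1 : η * n ≤ 1 := by
    have h1 : 1 ≤ Real.exp n := Real.one_le_exp (by positivity)
    have h2 : 0 ≤ η * n := by positivity
    nlinarith
  have hFd : DifferentiableOn ℂ F (ball p (3/2)) := fun w hw =>
    (hF w hw).1.differentiableWithinAt
  have hgd : DifferentiableOn ℂ (fun w => logDeriv F w - n) (ball p (3/2)) := by
    have h1 := hFd.deriv isOpen_ball
    have h2 : DifferentiableOn ℂ (fun w => deriv F w / F w) (ball p (3/2)) :=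
      h1.div hFd (fun w hw => (hF w hw).2.1)
    exact h2.sub_const _
  obtain ⟨h, hp, hh⟩ := hgd.isExactOn_ball.with_val_at p 0
  have hpm : p ∈ ball p (3/2 : ℝ) := mem_ball_self (by norm_num)
  have hbd : ∀ w ∈ ball p (3/2 : ℝ), ‖h w‖ ≤ η * n * ‖w - p‖ := by
    intro w hw
    have := (convex_ball p (3/2 : ℝ)).norm_image_sub_le_of_norm_hasDerivWithin_le
      (f := h) (f' := fun w => logDeriv F w - n) (C := η * n)
      (fun x hx => (hh x hx).hasDerivWithinAt) (fun x hx => (hF x hx).2.2) hpm hw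
    rwa [hp, sub_zero] at this
  have hrep : ∀ w ∈ ball p (3/2 : ℝ), F w = F p * cexp (n * (w - p) + h w) := by
    intro w hw
    have hD : ∀ x ∈ ball p (3/2 : ℝ),
        HasDerivWithinAt (fun w => F w * cexp (-(n * (w - p) + h w))) 0 (ball p (3/2)) x := by
      intro x hx
      have h1 : HasDerivAt F (deriv F x) x := (hF x hx).1.hasDerivAt
      have h2 : HasDerivAt (fun w => -(n * (w - p) + h w)) (-((n : ℂ) * 1 + (logDeriv F x - n))) x :=
        ((((hasDerivAt_id x).sub_const p).const_mul (n : ℂ)).add (hh x hx)).neg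
      have h3 := h1.mul h2.cexp
      have e : deriv F x * cexp (-(n * (x - p) + h x)) +
          F x * (cexp (-(n * (x - p) + h x)) * (-((n : ℂ) * 1 + (logDeriv F x - n)))) = 0 := by
        have hne := (hF x hx).2.1
        rw [logDeriv_apply]
        field_simp
        ring
      rw [e] at h3
      exact h3.hasDerivWithinAt
    have h4 := (convex_ball p (3/2 : ℝ)).norm_image_sub_le_of_norm_hasDerivWithin_le
      (f := fun w => F w * cexp (-(n * (w - p) + h w))) (f' := fun _ => 0) (C := 0)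
      hD (fun x _ => by simp) hpm hw
    rw [zero_mul] at h4
    have h5 := sub_eq_zero.1 (norm_le_zero_iff.1 h4)
    simp only [sub_self, mul_zero, hp, add_zero, neg_zero, Complex.exp_zero, mul_one] at h5
    rw [← h5, mul_assoc, ← Complex.exp_add]
    simp
  obtain ⟨A, hA⟩ : ∃ A : ℂ, A = F p * cexp (-(n * p)) := ⟨_, rfl⟩
  have hDc : DiffContOnCl ℂ (fun w => F w - A * cexp (n * w)) (ball p 1) := by
    apply DifferentiableOn.diffContOnCl_ball (U := ball p (3/2))
    · apply hFd.sub
      apply Differentiable.differentiableOn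
      fun_prop
    · exact closedBall_subset_ball (by norm_num)
  have hsph : ∀ w ∈ sphere p (1 : ℝ), ‖F w - A * cexp (n * w)‖ ≤ ‖F p‖ / 2 := by
    intro w hw
    have hw1 : ‖w - p‖ = 1 := by rwa [mem_sphere, dist_eq_norm] at hw
    have hwb : w ∈ ball p (3/2 : ℝ) := by
      rw [mem_ball, dist_eq_norm, hw1]; norm_num
    have e1 : F w - A * cexp (n * w) = F p * cexp (n * (w - p)) * (cexp (h w) - 1) := by
      have e0 : cexp (-(n * p)) * cexp (n * w) = cexp (n * (w - p)) := by
        rw [← Complex.exp_add]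
        congr 1
        ring
      rw [hrep w hwb, hA, Complex.exp_add, mul_assoc (F p) (cexp (-(n * p))), e0]
      ring
    have hb := hbd w hwb
    rw [hw1, mul_one] at hb
    have e2 : ‖cexp (n * (w - p))‖ ≤ Real.exp n := by
      rw [Complex.norm_exp]
      apply Real.exp_le_exp.2
      have h1 : ((n : ℂ) * (w - p)).re ≤ ‖(n : ℂ) * (w - p)‖ := Complex.re_le_norm _
      rw [norm_mul, hw1, mul_one, Complex.norm_natCast] at h1
      exact h1
    have e3 : ‖cexp (h w) - 1‖ ≤ 2 * (η * n) := by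
      have := Complex.norm_exp_sub_one_le (hb.trans hηn1)
      linarith
    rw [e1, norm_mul, norm_mul]
    calc ‖F p‖ * ‖cexp (n * (w - p))‖ * ‖cexp (h w) - 1‖
        ≤ ‖F p‖ * Real.exp n * (2 * (η * n)) := by gcongr
      _ = ‖F p‖ * (2 * (η * n) * Real.exp n) := by ring
      _ ≤ ‖F p‖ * (1 / 2) := by gcongr
      _ = ‖F p‖ / 2 := by ring
  have hcau := norm_iteratedDeriv_le_of_forall_mem_sphere_norm_le n one_pos hDc hsph
  rw [one_pow, div_one] at hcau
  have hFc : ContDiffAt ℂ n F p := (hFd.analyticAt (isOpen_ball.mem_nhds hpm)).contDiffAt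
  have e4 : iteratedDeriv n (fun w => F w - A * cexp (n * w)) p = iteratedDeriv n F p - F p * n ^ n := by
    have h1 : iteratedDeriv n (fun w => A * cexp (n * w)) p = F p * n ^ n := by
      rw [iteratedDeriv_const_mul_field, iteratedDeriv_cexp_const_mul]
      simp only
      rw [hA, mul_comm ((n : ℂ) ^ n), ← mul_assoc, mul_assoc (F p), ← Complex.exp_add]
      simp
    have h2 := iteratedDeriv_sub (n := n) hFc
      (g := fun w => A * cexp (n * w)) (by
        apply ContDiff.contDiffAt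
        fun_prop)
    rw [h1] at h2
    exact h2
  rw [e4] at hcau
  have h6 : ‖F p * (n : ℂ) ^ n‖ ≤ ‖iteratedDeriv n F p‖ + n.factorial * (‖F p‖ / 2) := by
    have := norm_sub_norm_le (F p * (n : ℂ) ^ n) (iteratedDeriv n F p)
    rw [norm_sub_rev] at this
    linarith
  rw [norm_mul, norm_pow, Complex.norm_natCast] at h6
  have h7 : (n.factorial : ℝ) ≤ (n : ℝ) ^ n := by exact_mod_cast Nat.factorial_le_pow n
  have h8 := mul_le_mul_of_nonneg_left h7 (norm_nonneg (F p))
  linarith

theorem sb2 : SB2 := by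
  obtain ⟨η, n0, hη, _, hL⟩ := sb2L
  obtain ⟨η', hη', hS⟩ := sb2S n0
  refine ⟨min η η', lt_min hη hη', ?_⟩
  intro n p F hn hF
  rcases le_total n0 n with h | h
  · apply hL n p F h
    intro w hw
    obtain ⟨h1, h2, h3⟩ := hF w hw
    exact ⟨h1, h2, h3.trans (mul_le_mul_of_nonneg_right (min_le_left _ _) (Nat.cast_nonneg _))⟩
  · apply hS n p F hn h
    intro w hw
    obtain ⟨h1, h2, h3⟩ := hF w hw
    exact ⟨h1, h2, h3.trans (mul_le_mul_of_nonneg_right (min_le_right _ _) (Nat.cast_nonneg _))⟩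

end Pool.Agent.W347.SD
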